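import Pool.Agent.H71.FX.Targets2

/-! Row BD of fxm_modules (MP_64fb07_lc): few elements have two preimages. -/

set_option autoImplicit false

namespace Pool.Agent.H1.FX

open Pool.Agent.H71.FX Pool.Agent.H71.PF

theorem pf_BD : T_BD := by
  classical
  intro α _ f a c h
  -- a section
  have hs : ∀ x : α, ∃ y, x ∈ Set.range f → f y = x := by
    intro x
    by_cases hx : x ∈ Set.range f
    · obtain ⟨y, hy⟩ := hx
      exact ⟨y, fun _ => hy⟩
    · exact ⟨x, fun h => absurd h hx⟩
  choose s hs using hs
  have hinj : Set.InjOn s (Set.range f) := by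
    intro x hx y hy hxy
    rw [← hs x hx, ← hs y hy, hxy]
  have h1 : (s '' Set.range f).ncard = (Set.range f).ncard := hinj.ncard_image
  have h2 : {x | ∃ y z, y ≠ z ∧ f y = x ∧ f z = x} ⊆ f '' (s '' Set.range f)ᶜ := by
    rintro x ⟨y, z, hyz, hy, hz⟩
    have key : ∀ w, f w = x → w ∈ s '' Set.range f → w = s x := by
      rintro w hw ⟨x', hx', rfl⟩
      rw [hs x' hx'] at hw
      rw [hw]
    by_cases hy' : y ∈ s '' Set.range f
    · by_cases hz' : z ∈ s '' Set.range f
      · exact absurd ((key y hy hy').trans (key z hz hz').symm) hyz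
      · exact ⟨z, hz', hz⟩
    · exact ⟨y, hy', hy⟩
  have h3 : {x | ∃ y z, y ≠ z ∧ f y = x ∧ f z = x}.ncard ≤ ((s '' Set.range f)ᶜ).ncard :=
    (Set.ncard_le_ncard h2 (Set.toFinite _)).trans (Set.ncard_image_le (Set.toFinite _))
  have h4 := Set.ncard_add_ncard_compl (s '' Set.range f)
  have h5 := Set.ncard_add_ncard_compl (Set.range f)
  have h6 : ((Set.range f)ᶜ).ncard ≤ a := by
    have h7 : (Set.range f)ᶜ ⊆ (((Finset.range a).image c : Finset α) : Set α) := by
      intro x hx
      obtain ⟨i, hi, k, hk⟩ := h x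
      rw [Finset.mem_coe, Finset.mem_image]
      cases k with
      | zero => exact ⟨i, Finset.mem_range.2 hi, hk⟩
      | succ k =>
        rw [Function.iterate_succ_apply'] at hk
        exact absurd ⟨_, hk⟩ hx
    calc ((Set.range f)ᶜ).ncard ≤ (((Finset.range a).image c : Finset α) : Set α).ncard :=
          Set.ncard_le_ncard h7 (Set.toFinite _)
      _ = ((Finset.range a).image c).card := Set.ncard_coe_finset _
      _ ≤ (Finset.range a).card := Finset.card_image_le
      _ = a := Finset.card_range a
  omega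

end Pool.Agent.H1.FX
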