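import Pool.Agent.H71.FX.Targets

/-! Row DE of fxm_modules (MP_64fb07_lc): all columns end below. -/

set_option autoImplicit false

namespace Pool.Agent.H1.FX

open Pool.Agent.H71.FX Pool.Agent.H71.PF Pool.Agent.H8.PL

theorem pf_DE (il : T_IL) (tr : T_TR) : T_DE := by
  intro α Q m hf hR hup x
  by_contra hcon
  have hcon : ∀ i, ¬ m.bt (m.d^[i] x) := fun i hi => hcon ⟨i, hi⟩
  have IL : ∀ (y : α) (j : ℕ), (∀ i < j, ¬ m.bt (m.d^[i] y)) → m.u^[j] (m.d^[j] y) = y ∧
      (∀ i < j, ¬ m.tp (m.u^[i] (m.d^[j] y))) := fun y j h => by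
    obtain ⟨h1, h2, -, -, -⟩ := il α Q m.tr (tr α Q m hR) y j h
    exact ⟨h1, h2⟩
  obtain ⟨i, j, hij, he⟩ : ∃ i j, i < j ∧ m.d^[i] x = m.d^[j] x := by
    obtain ⟨a, b, hab, h⟩ := Finite.exists_ne_map_eq_of_infinite (fun i : ℕ => m.d^[i] x)
    rcases lt_or_gt_of_ne hab with h' | h'
    · exact ⟨a, b, h', h⟩
    · exact ⟨b, a, h', h.symm⟩
  have h1 := (IL x i fun a _ => hcon a).1
  have h2 := (IL (m.d^[j - i] x) i fun a _ => by
    rw [← Function.iterate_add_apply]
    exact hcon _).1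
  rw [← Function.iterate_add_apply, show i + (j - i) = j by omega, ← he, h1] at h2
  -- the period
  have h3 : ∀ n : ℕ, m.d^[n * (j - i)] x = x := by
    intro n
    induction n with
    | zero => rw [Nat.zero_mul]; rfl
    | succ n ih => rw [Nat.succ_mul, Function.iterate_add_apply, ← h2, ih]
  obtain ⟨k, hk⟩ := hup x
  have h4 := (IL x ((k + 1) * (j - i)) fun a _ => hcon a).2 k (by
    have : 1 ≤ j - i := by omega
    nlinarith)
  rw [h3] at h4
  exact h4 hk

end Pool.Agent.H1.FX
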