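import Pool.Agent.H71.FX.Targets

/-! Row OV of fxm_modules (MP_64fb07_lc): no overflow. -/

set_option autoImplicit false

namespace Pool.Agent.H1.FX

open Pool.Agent.H71.FX Pool.Agent.H71.PF Pool.Agent.H8.PL

theorem pf_OV : T_OV := by
  rintro y w hy ⟨h1, h2⟩
  have h3 : y = 2 ^ (w + 1) - 1 := by
    refine Nat.eq_of_testBit_eq fun i => ?_
    rw [Nat.testBit_two_pow_sub_one]
    by_cases hi : i < w + 1
    · rw [decide_eq_true hi]
      rcases Nat.lt_succ_iff_lt_or_eq.1 hi with h | h
      · exact h1 i h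
      · rw [h]
        exact h2
    · rw [decide_eq_false hi]
      refine Nat.testBit_lt_two_pow (lt_of_lt_of_le (b := 2 ^ (w + 1)) (by omega) ?_)
      exact Nat.pow_le_pow_right (by norm_num) (not_lt.1 hi)
  omega

end Pool.Agent.H1.FX
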