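import Pool.Agent.H71.FX.Targets

/-! Row UE of fxm_modules (MP_64fb07_lc): the left column ends. -/

set_option autoImplicit false

namespace Pool.Agent.H1.FX

open Pool.Agent.H71.FX Pool.Agent.H71.PF Pool.Agent.H8.PL

theorem pf_UE (re : T_RE) (ct : T_CT) (nb : T_NB) : T_UE := by
  intro α Q m hf hR x hx
  by_contra hcon
  have hcon : ∀ i, ¬ m.tp (m.u^[i] x) := fun i hi => hcon ⟨i, hi⟩
  obtain ⟨j, hj, hj'⟩ := re α Q m hf hR x hx
  have key : ∀ i, m.lf (m.u^[i] x) ∧ m.rt (m.r^[j] (m.u^[i] x)) ∧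
      (∀ a < j, ¬ m.rt (m.r^[a] (m.u^[i] x))) ∧
      num (fun a => m.d1 (m.r^[a] (m.u^[i] x))) (j + 1) =
        num (fun a => m.d1 (m.r^[a] x)) (j + 1) + i := by
    intro i
    induction i with
    | zero => exact ⟨hx, hj, hj', rfl⟩
    | succ i ih =>
      obtain ⟨h1, h2, h3, h4⟩ := ih
      obtain ⟨g1, g2, g3, g4⟩ := ct α Q m hR (m.u^[i] x) j h1 (hcon i) h2 h3
      rw [Function.iterate_succ_apply']
      exact ⟨g1, g2, g3, by rw [g4, h4, add_assoc]⟩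
  have h := (key (2 ^ (j + 1))).2.2.2
  have h2 := nb (fun a => m.d1 (m.r^[a] (m.u^[2 ^ (j + 1)] x))) (j + 1)
  omega

end Pool.Agent.H1.FX
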